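import Pool.Agent.helper87.TR.Spec

/-!
# Row tr:S2 (MP_3221a1_ag): the structure at the single columns
-/

set_option autoImplicit false

namespace Pool.Agent.helper87.TR

open Polynomial Finset Module FP97

lemma S2_mul {A B : ℂ[X]} {s t : ℕ} (hA : A ∈ degreeLT ℂ s) (hB : B ∈ degreeLT ℂ (t + 1)) :
    A * B ∈ degreeLT ℂ (s + t) := by
  by_cases hA0 : A = 0
  · rw [hA0, zero_mul]
    exact zero_mem _
  by_cases hB0 : B = 0
  · rw [hB0, mul_zero]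
    exact zero_mem _
  rw [mem_degreeLT, degree_eq_natDegree hA0] at hA
  rw [mem_degreeLT, degree_eq_natDegree hB0] at hB
  rw [mem_degreeLT, degree_eq_natDegree (mul_ne_zero hA0 hB0), natDegree_mul hA0 hB0]
  have h1 : A.natDegree < s := by exact_mod_cast hA
  have h2 : B.natDegree < t + 1 := by exact_mod_cast hB
  have h3 : A.natDegree + B.natDegree < s + t := by omega
  exact_mod_cast h3

lemma S2_two {A B : ℂ[X]} {s t : ℕ} (hA : A ∈ degreeLT ℂ (s + 1)) (hB : B ∈ degreeLT ℂ (t + 1)) :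
    A * B ∈ degreeLT ℂ (s + t + 1) := by
  have h := S2_mul hA hB
  have e : s + 1 + t = s + t + 1 := by omega
  rwa [e] at h

lemma S2_mul' {A B : ℂ[X]} {N c M : ℕ} (hM : M = N - c) (hA : A ∈ degreeLT ℂ M)
    (hB : B ∈ degreeLT ℂ (c + 1)) : A * B ∈ degreeLT ℂ N := by
  subst hM
  rcases Nat.lt_or_ge N c with h | h
  · have h0 : N - c = 0 := by omega
    rw [h0] at hA
    rw [eq_zero_of_mem_zero hA, zero_mul]
    exact zero_mem _
  · have h1 := S2_mul hA hB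
    have e : N - c + c = N := by omega
    rwa [e] at h1

/-- the polynomials `φ` vanish doubly -/
lemma S2_dbl {G : Fin 3 → ℂ[X]} {x b : ℂ} (hG : Db G x b) {P Q P' Q' : ℂ[X]}
    (h : Q.eval x = b * P.eval x) (h' : Q'.eval x = b * P'.eval x) :
    (X - C x) ^ 2 ∣ G 0 * (P * P') + G 0 * (P * P') + G 1 * (P * Q' + P' * Q) +
      (G 2 * (Q * Q') + G 2 * (Q * Q')) := by
  obtain ⟨h1, h2, h3⟩ := hG
  rw [sq_dvd_iff]
  constructor
  · simp only [eval_add, eval_mul, h, h']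
    linear_combination 2 * P.eval x * P'.eval x * h1
  · simp only [eval_add, eval_mul, derivative_add, derivative_mul, h, h']
    linear_combination 2 * P.eval x * P'.eval x * h2 +
      ((derivative P).eval x * P'.eval x + P.eval x * (derivative P').eval x) * (2 * h1 - b * h3) +
      (P.eval x * (derivative Q').eval x + P'.eval x * (derivative Q).eval x) * h3

lemma S2_Db {P1 Q1 P2 Q2 : ℂ[X]} {a b : ℂ} (h1 : Q1.eval a = b * P1.eval a)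
    (h2 : Q2.eval a = b * P2.eval a) (x : Fin 3 → ℂ[X]) : Db (Sy P1 Q1 P2 Q2 x) a b := by
  have e0 : Sy P1 Q1 P2 Q2 x 0 = x 0 * (Q1 * Q1) + x 1 * (Q1 * Q2) + x 2 * (Q2 * Q2) := by
    show x 0 * Q1 ^ 2 + x 1 * (Q1 * Q2) + x 2 * Q2 ^ 2 = _
    ring
  have e1 : Sy P1 Q1 P2 Q2 x 1 = -(x 0 * (P1 * Q1) + x 0 * (P1 * Q1) + x 1 * (P1 * Q2 + P2 * Q1) +
      (x 2 * (P2 * Q2) + x 2 * (P2 * Q2))) := by
    show -(x 0 * (2 * P1 * Q1) + x 1 * (P1 * Q2 + P2 * Q1) + x 2 * (2 * P2 * Q2)) = _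
    ring
  have e2 : Sy P1 Q1 P2 Q2 x 2 = x 0 * (P1 * P1) + x 1 * (P1 * P2) + x 2 * (P2 * P2) := by
    show x 0 * P1 ^ 2 + x 1 * (P1 * P2) + x 2 * P2 ^ 2 = _
    ring
  refine ⟨?_, ?_, ?_⟩
  · rw [e0, e1, e2]
    simp only [eval_add, eval_mul, eval_neg, h1, h2]
    ring
  · rw [e0, e1, e2]
    simp only [eval_add, eval_mul, eval_neg, derivative_add, derivative_mul, derivative_neg, h1, h2]
    ring
  · rw [e1, e2]
    simp only [eval_add, eval_mul, eval_neg, h1, h2]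
    ring

/-- **S2** -/
theorem S2 : S2_stmt := by
  intro ι a β L d P1 Q1 P2 Q2 ha hB
  have hdle := hB.dle
  have hWne : (∏ k ∈ L, (X - C (a k)) ^ 2 : ℂ[X]) ≠ 0 :=
    (monic_prod_of_monic _ _ fun k _ => (monic_X_sub_C (a k)).pow 2).ne_zero
  have hdeg : (∏ k ∈ L, (X - C (a k)) ^ 2 : ℂ[X]).natDegree = 2 * L.card := by
    have h := natDegree_prod_pow L a (fun _ => 2)
    rw [h, sum_const, smul_eq_mul, mul_comm]
  have hW2 : (∏ k ∈ L, (X - C (a k)) ^ 2 : ℂ[X]) = (P1 * Q2 - P2 * Q1) ^ 2 := by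
    rw [hB.det, Finset.prod_pow]
  set W2 : ℂ[X] := ∏ k ∈ L, (X - C (a k)) ^ 2 with hW2def
  refine ⟨fun G N => ⟨?_, ?_⟩, ?_⟩
  · rintro ⟨hG, hD⟩
    have dvd : ∀ P Q P' Q' : ℂ[X], (∀ k ∈ L, Q.eval (a k) = β k * P.eval (a k)) →
        (∀ k ∈ L, Q'.eval (a k) = β k * P'.eval (a k)) →
        W2 ∣ G 0 * (P * P') + G 0 * (P * P') + G 1 * (P * Q' + P' * Q) +
          (G 2 * (Q * Q') + G 2 * (Q * Q')) := by
      intro P Q P' Q' h h'
      have h9 := (prod_pow_dvd L a ha (fun _ => 2) (G 0 * (P * P') + G 0 * (P * P') +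
        G 1 * (P * Q' + P' * Q) + (G 2 * (Q * Q') + G 2 * (Q * Q')))).mpr
      exact h9 fun k hk => S2_dbl (hD k hk) (h k hk) (h' k hk)
    obtain ⟨u, hu⟩ := dvd P2 Q2 P2 Q2 hB.two hB.two
    obtain ⟨v, hv⟩ := dvd P1 Q1 P2 Q2 hB.one hB.two
    obtain ⟨z, hz⟩ := dvd P1 Q1 P1 Q1 hB.one hB.one
    -- degrees
    have dg : ∀ (P Q P' Q' y : ℂ[X]) (s t c : ℕ), P ∈ degreeLT ℂ (s + 1) → Q ∈ degreeLT ℂ (s + 1) →
        P' ∈ degreeLT ℂ (t + 1) → Q' ∈ degreeLT ℂ (t + 1) →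
        G 0 * (P * P') + G 0 * (P * P') + G 1 * (P * Q' + P' * Q) +
          (G 2 * (Q * Q') + G 2 * (Q * Q')) = W2 * y → N + (s + t) - 2 * L.card ≤ c →
        y ∈ degreeLT ℂ c := by
      intro P Q P' Q' y s t c hP hQ hP' hQ' hy hc
      have h1 : W2 * y ∈ degreeLT ℂ (N + (s + t)) := by
        rw [← hy]
        have k1 := S2_mul (hG 0) (S2_two hP hP')
        have k2 : G 1 * (P * Q' + P' * Q) ∈ degreeLT ℂ (N + (s + t)) := by
          refine S2_mul (hG 1) (add_mem (S2_two hP hQ') ?_)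
          rw [mul_comm]
          exact S2_two hQ hP'
        have k3 := S2_mul (hG 2) (S2_two hQ hQ')
        exact add_mem (add_mem (add_mem k1 k1) k2) (add_mem k3 k3)
      have h2 := (mem_degreeLT_mul hWne).mp h1
      rw [hdeg] at h2
      exact degreeLT_mono hc h2
    have hx0 : C (1 / 2 : ℂ) * u ∈ degreeLT ℂ (N - 2 * d) := by
      have h1 := dg P2 Q2 P2 Q2 u (L.card - d) (L.card - d) (N - 2 * d) hB.P2d hB.Q2d hB.P2d hB.Q2d hu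
        (by omega)
      rw [← smul_eq_C_mul]
      exact Submodule.smul_mem _ _ h1
    have hx1 : -v ∈ degreeLT ℂ (N - 2 * d - 1 * (L.card - 2 * d)) := by
      have h1 := dg P1 Q1 P2 Q2 v d (L.card - d) (N - 2 * d - 1 * (L.card - 2 * d)) hB.P1d hB.Q1d
        hB.P2d hB.Q2d hv (by omega)
      exact neg_mem h1
    have hx2 : C (1 / 2 : ℂ) * z ∈ degreeLT ℂ (N - 2 * d - 2 * (L.card - 2 * d)) := by
      have h1 := dg P1 Q1 P1 Q1 z d d (N - 2 * d - 2 * (L.card - 2 * d)) hB.P1d hB.Q1d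
        hB.P1d hB.Q1d hz (by omega)
      rw [← smul_eq_C_mul]
      exact Submodule.smul_mem _ _ h1
    have hC : (C (1 / 2 : ℂ) : ℂ[X]) * 2 = 1 := by
      have h2 : (2 : ℂ[X]) = C 2 := (map_ofNat C 2).symm
      rw [h2, ← C_mul]
      norm_num
    refine ⟨![C (1 / 2 : ℂ) * u, -v, C (1 / 2 : ℂ) * z], ?_, ?_⟩
    · funext q
      apply mul_left_cancel₀ hWne
      fin_cases q
      · show W2 * G 0 = W2 * (C (1 / 2 : ℂ) * u * Q1 ^ 2 + -v * (Q1 * Q2) + C (1 / 2 : ℂ) * z * Q2 ^ 2)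
        linear_combination (G 0) * hW2 + C (1 / 2 : ℂ) * Q1 ^ 2 * hu - (Q1 * Q2) * hv +
          C (1 / 2 : ℂ) * Q2 ^ 2 * hz - (Q1 ^ 2 * (G 0 * P2 ^ 2 + G 1 * (P2 * Q2) + G 2 * Q2 ^ 2) +
            Q2 ^ 2 * (G 0 * P1 ^ 2 + G 1 * (P1 * Q1) + G 2 * Q1 ^ 2)) * hC
      · show W2 * G 1 = W2 * -(C (1 / 2 : ℂ) * u * (2 * P1 * Q1) + -v * (P1 * Q2 + P2 * Q1) +
          C (1 / 2 : ℂ) * z * (2 * P2 * Q2))
        linear_combination (G 1) * hW2 - C (1 / 2 : ℂ) * (2 * P1 * Q1) * hu +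
          (P1 * Q2 + P2 * Q1) * hv - C (1 / 2 : ℂ) * (2 * P2 * Q2) * hz +
          ((2 * P1 * Q1) * (G 0 * P2 ^ 2 + G 1 * (P2 * Q2) + G 2 * Q2 ^ 2) +
            (2 * P2 * Q2) * (G 0 * P1 ^ 2 + G 1 * (P1 * Q1) + G 2 * Q1 ^ 2)) * hC
      · show W2 * G 2 = W2 * (C (1 / 2 : ℂ) * u * P1 ^ 2 + -v * (P1 * P2) + C (1 / 2 : ℂ) * z * P2 ^ 2)
        linear_combination (G 2) * hW2 + C (1 / 2 : ℂ) * P1 ^ 2 * hu - (P1 * P2) * hv +
          C (1 / 2 : ℂ) * P2 ^ 2 * hz - (P1 ^ 2 * (G 0 * P2 ^ 2 + G 1 * (P2 * Q2) + G 2 * Q2 ^ 2) +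
            P2 ^ 2 * (G 0 * P1 ^ 2 + G 1 * (P1 * Q1) + G 2 * Q1 ^ 2)) * hC
    · intro q
      fin_cases q
      · show C (1 / 2 : ℂ) * u ∈ degreeLT ℂ (N - 2 * d - 0 * (L.card - 2 * d))
        exact degreeLT_mono (by omega) hx0
      · exact hx1
      · exact hx2
  · rintro ⟨x, rfl, hx⟩
    refine ⟨?_, fun k hk => S2_Db (hB.one k hk) (hB.two k hk) x⟩
    have hx0 : x 0 ∈ degreeLT ℂ (N - 2 * d - 0 * (L.card - 2 * d)) := hx 0
    have hx1 : x 1 ∈ degreeLT ℂ (N - 2 * d - 1 * (L.card - 2 * d)) := hx 1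
    have hx2 : x 2 ∈ degreeLT ℂ (N - 2 * d - 2 * (L.card - 2 * d)) := hx 2
    have gen : ∀ A0 A1 A2 : ℂ[X], A0 ∈ degreeLT ℂ (d + d + 1) → A1 ∈ degreeLT ℂ (d + (L.card - d) + 1) →
        A2 ∈ degreeLT ℂ ((L.card - d) + (L.card - d) + 1) →
        x 0 * A0 + x 1 * A1 + x 2 * A2 ∈ degreeLT ℂ N := by
      intro A0 A1 A2 h0 h1 h2
      refine add_mem (add_mem (S2_mul' ?_ hx0 h0) (S2_mul' ?_ hx1 h1)) (S2_mul' ?_ hx2 h2)
      · omega
      · omega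
      · omega
    intro q
    fin_cases q
    · show x 0 * Q1 ^ 2 + x 1 * (Q1 * Q2) + x 2 * Q2 ^ 2 ∈ degreeLT ℂ N
      rw [sq, sq]
      exact gen _ _ _ (S2_two hB.Q1d hB.Q1d) (S2_two hB.Q1d hB.Q2d) (S2_two hB.Q2d hB.Q2d)
    · show -(x 0 * (2 * P1 * Q1) + x 1 * (P1 * Q2 + P2 * Q1) + x 2 * (2 * P2 * Q2)) ∈ degreeLT ℂ N
      refine neg_mem (gen _ _ _ ?_ ?_ ?_)
      · have h := S2_two hB.P1d hB.Q1d
        have e : 2 * P1 * Q1 = P1 * Q1 + P1 * Q1 := by ring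
        rw [e]
        exact add_mem h h
      · refine add_mem (S2_two hB.P1d hB.Q2d) ?_
        rw [mul_comm P2 Q1]
        exact S2_two hB.Q1d hB.P2d
      · have h := S2_two hB.P2d hB.Q2d
        have e : 2 * P2 * Q2 = P2 * Q2 + P2 * Q2 := by ring
        rw [e]
        exact add_mem h h
    · show x 0 * P1 ^ 2 + x 1 * (P1 * P2) + x 2 * P2 ^ 2 ∈ degreeLT ℂ N
      rw [sq, sq]
      exact gen _ _ _ (S2_two hB.P1d hB.P1d) (S2_two hB.P1d hB.P2d) (S2_two hB.P2d hB.P2d)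
  · intro x x' h
    have k0 : x 0 * Q1 ^ 2 + x 1 * (Q1 * Q2) + x 2 * Q2 ^ 2 =
        x' 0 * Q1 ^ 2 + x' 1 * (Q1 * Q2) + x' 2 * Q2 ^ 2 := congrFun h 0
    have k1 : -(x 0 * (2 * P1 * Q1) + x 1 * (P1 * Q2 + P2 * Q1) + x 2 * (2 * P2 * Q2)) =
        -(x' 0 * (2 * P1 * Q1) + x' 1 * (P1 * Q2 + P2 * Q1) + x' 2 * (2 * P2 * Q2)) := congrFun h 1
    have k2 : x 0 * P1 ^ 2 + x 1 * (P1 * P2) + x 2 * P2 ^ 2 =
        x' 0 * P1 ^ 2 + x' 1 * (P1 * P2) + x' 2 * P2 ^ 2 := congrFun h 2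
    funext q
    apply mul_left_cancel₀ hWne
    fin_cases q
    · show W2 * x 0 = W2 * x' 0
      rw [hW2]
      linear_combination P2 ^ 2 * k0 + P2 * Q2 * k1 + Q2 ^ 2 * k2
    · show W2 * x 1 = W2 * x' 1
      rw [hW2]
      linear_combination -(2 * P1 * P2) * k0 - (P1 * Q2 + P2 * Q1) * k1 - (2 * Q1 * Q2) * k2
    · show W2 * x 2 = W2 * x' 2
      rw [hW2]
      linear_combination P1 ^ 2 * k0 + P1 * Q1 * k1 + Q1 ^ 2 * k2

end Pool.Agent.helper87.TR
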